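import Pool.Agent.Lib.ST.NColl
import Pool.Agent.Lib.ST.NGrp
import Pool.Agent.Lib.ST.V1N

/-!
# The existence of a strange group of cardinality `ℵ₁` is independent of ZFC
-/

set_option autoImplicit false

namespace Pool.Agent.Results.MP_b18e8e_lc.AlephOneIndependent

open Pool.PC Pool.ST

/-- There is a countable transitive model of ZFC which satisfies: some group of cardinality `ℵ₁`
has no good subset of cardinality `ℵ₁`; and there is a countable transitive model of ZFC which
satisfies: every group of cardinality `ℵ₁` has a good subset of cardinality `ℵ₁`. -/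
theorem result :
    (∃ V : Set ZFSet.{0}, V.Countable ∧ (∀ x ∈ V, ∀ y ∈ x, y ∈ V) ∧ ZFCModel V ∧
      ∃ c, NextCard V ZFSet.omega c ∧ StrangeV V c) ∧
    (∃ V : Set ZFSet.{0}, V.Countable ∧ (∀ x ∈ V, ∀ y ∈ x, y ∈ V) ∧ ZFCModel V ∧
      ∃ c, NextCard V ZFSet.omega c ∧ NoStrangeV V c) := by
  refine ⟨Pool.ST1.exists_strange, ?_⟩
  obtain ⟨V, h1, h2, h3, c, h4, h5⟩ := exists_model0
  exact ⟨V, h1, h2, h3, c, h4, noStrange_of_free h2 h3 h4 h5⟩

end Pool.Agent.Results.MP_b18e8e_lc.AlephOneIndependent
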