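import Pool.Agent.Lib.MP_b18e8e_lc.Chain

/-!
# Strange groups have descending chains of large centralizers
-/

set_option autoImplicit false

namespace Pool.Agent.Results.MP_b18e8e_lc.CentralizerChain

open Cardinal Pool.Agent.Lib.MP_b18e8e_lc

universe u

/-- Let `Y` be an infinite subset of a group `G` and let `θ < |Y|`, or `θ = |Y|` regular. If there
is no increasing sequence of finite subsets of `G` whose centralizers are strictly decreasing and
all of cardinality at least `θ`, then `Y` contains a good subset of cardinality `|Y|`. -/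
theorem result {G : Type u} [Group G] (Y : Set G) (hY : Y.Infinite) (θ : Cardinal.{u})
    (hθ : θ < #Y ∨ θ = #Y ∧ (#Y).IsRegular)
    (h : ∀ A : ℕ → Finset G, (∀ n, A n ⊆ A (n + 1)) →
      (∀ n, Subgroup.centralizer (A (n + 1) : Set G) < Subgroup.centralizer (A n : Set G)) →
        ∃ n, #(Subgroup.centralizer (A n : Set G)) < θ) :
    ∃ H : Set G, H ⊆ Y ∧ IsGood H ∧ #H = #Y :=
  Chain.exists_good h Y hY hθ

end Pool.Agent.Results.MP_b18e8e_lc.CentralizerChain
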