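import Pool.Agent.Lib.MP_b18e8e_lc.Long

/-!
# Strange groups have descending chains of large centralizers of uncountable length
-/

set_option autoImplicit false

namespace Pool.Agent.Results.MP_b18e8e_lc.LongCentralizerChain

open Cardinal Pool.Agent.Lib.MP_b18e8e_lc

universe u

/-- Let `Y` be a subset of a group `G` of regular cardinality `κ` and let `μ < κ` be an infinite
cardinal with `a ^ b < κ` for all `a < κ` and `b < μ`. If `Y` contains no good subset of
cardinality `κ`, then `G` has an increasing family of subsets `A α`, `α < μ`, each of cardinality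
less than `μ`, whose centralizers are strictly decreasing and of cardinality at least `κ`. -/
theorem result {G : Type u} [Group G] (Y : Set G) (hr : (#Y).IsRegular) (μ : Cardinal.{u})
    (hμ : ℵ₀ ≤ μ) (hμY : μ < #Y) (hpow : ∀ a < #Y, ∀ b < μ, a ^ b < #Y)
    (hY : ¬ ∃ H : Set G, H ⊆ Y ∧ IsGood H ∧ #H = #Y) :
    ∃ A : μ.ord.ToType → Set G,
      (∀ α β, α < β → A α ⊆ A β ∧ Subgroup.centralizer (A β) < Subgroup.centralizer (A α)) ∧
        ∀ α, #(A α) < μ ∧ #Y ≤ #(Subgroup.centralizer (A α)) :=
  Long.exists_chain Y hr μ hμ hμY hpow hY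

end Pool.Agent.Results.MP_b18e8e_lc.LongCentralizerChain
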