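import Pool.Agent.Lib.MP_b18e8e_lc.Ideal

/-!
# Saturated ideals exclude strange groups
-/

set_option autoImplicit false

namespace Pool.Agent.Results.MP_b18e8e_lc.SaturatedIdeal

open Cardinal Pool.Agent.Lib.MP_b18e8e_lc

universe u

/-- If an infinite cardinal `κ` carries a proper `κ`-complete `κ`-saturated ideal containing the
singletons, then there is no strange group of cardinality `κ`: every group of cardinality `κ`
has a good subset of cardinality `κ`. -/
theorem result (κ : Cardinal.{u}) (hκ : ℵ₀ ≤ κ)
    (h : ∃ (X : Type u) (I : Set (Set X)), #X = κ ∧ IsSaturatedIdeal I) : ¬ ExistsStrange κ :=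
  not_existsStrange_of_ideal κ hκ h

end Pool.Agent.Results.MP_b18e8e_lc.SaturatedIdeal
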